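import Mathlib
import Pool.Agent.BSH.Stmts

/-!
# Squad BSH, row HBD (helper27): the dimension of the powers of the space of a computation.
-/

set_option autoImplicit false

namespace Pool.Agent.BSH.H27

open MvPolynomial Pool.Agent.BSH

theorem one_mem_sp {E A : Type} [Field E] [CommRing A] [Algebra E A] (B : Set A) (l : List A) :
    (1 : A) ∈ sp E B l :=
  Submodule.subset_span (Or.inl (Or.inl rfl))

theorem sp_cons {E A : Type} [Field E] [CommRing A] [Algebra E A] (B : Set A) (g : A)
    (l : List A) : sp E B (g :: l) = sp E B l ⊔ Submodule.span E {g} := by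
  unfold sp
  rw [← Submodule.span_union]
  congr 1
  ext x
  simp only [Set.mem_union, Set.mem_singleton_iff, List.mem_cons, Set.mem_ofPred_eq]
  tauto

theorem sp_base {E A : Type} [Field E] [CommRing A] [Algebra E A] (B : Set A) (g : A) :
    sp E (B ∪ {g}) [] = sp E B [] ⊔ Submodule.span E {g} := by
  unfold sp
  rw [← Submodule.span_union]
  congr 1
  ext x
  simp only [Set.mem_union, Set.mem_singleton_iff, Set.mem_ofPred_eq]
  tauto

theorem sp_finite {E A : Type} [Field E] [CommRing A] [Algebra E A] (B : Set A) (hB : B.Finite)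
    (l : List A) : Module.Finite E (sp E B l) := by
  apply Module.Finite.iff_fg.2
  refine Submodule.fg_span ?_
  exact ((Set.finite_singleton _).union hB).union l.finite_toSet

theorem vs_finite (E : Type) [Field E] (n : ℕ) : (vs E n).Finite := by
  have h : vs E n ⊆ (fun i => (X i : MvPolynomial ℕ E)) '' (Set.Iio n) := by
    rintro x ⟨i, hi, rfl⟩
    exact ⟨i, hi, rfl⟩
  exact ((Set.finite_Iio n).image _).subset h

theorem hbd_step (h : HilStmt) {E A : Type} [Field E] [CommRing A] [IsDomain A] [Algebra E A]
    (W : Submodule E A) (g : A) (δ K n : ℕ) (hf : Module.Finite E W) (h1 : (1 : A) ∈ W)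
    (hδ : 1 ≤ δ) (hg : g ∈ W ^ δ)
    (hW : ∀ D, Module.finrank E (W ^ D : Submodule E A) ≤ K * (D + n).choose n) (D : ℕ) :
    Module.finrank E ((W ⊔ Submodule.span E {g}) ^ D : Submodule E A) ≤
      (δ * K) * (D + n).choose n := by
  refine (h E A W g δ D hf h1 hδ (Or.inl hg)).trans ?_
  calc ∑ i ∈ Finset.range δ, (if i ≤ D then Module.finrank E (W ^ (D - i) : Submodule E A) else 0)
      ≤ ∑ _i ∈ Finset.range δ, K * (D + n).choose n := by
        refine Finset.sum_le_sum fun i _ => ?_
        split_ifs with hi
        · exact (hW (D - i)).trans (Nat.mul_le_mul_left K (Nat.choose_le_choose n (by omega)))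
        · exact Nat.zero_le _
    _ = (δ * K) * (D + n).choose n := by
        rw [Finset.sum_const, Finset.card_range, smul_eq_mul, mul_assoc]

theorem hbd_vars (h : HilStmt) (E : Type) [Field E] (n : ℕ) : ∀ D,
    Module.finrank E ((sp E (vs E n) []) ^ D : Submodule E (MvPolynomial ℕ E)) ≤
      (D + n).choose n := by
  induction n with
  | zero =>
    intro D
    have e : sp E (vs E 0) [] = (1 : Submodule E (MvPolynomial ℕ E)) := by
      unfold sp
      rw [Submodule.one_eq_span]
      congr 1
      ext x
      simp [vs]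
    rw [e, one_pow, Submodule.one_eq_span]
    simpa using finrank_span_singleton (K := E) (one_ne_zero : (1 : MvPolynomial ℕ E) ≠ 0) |>.le
  | succ m ih =>
    intro D
    have e : vs E (m + 1) = vs E m ∪ {(X m : MvPolynomial ℕ E)} := by
      ext x
      simp only [vs, Set.mem_ofPred_eq, Set.mem_union, Set.mem_singleton_iff]
      constructor
      · rintro ⟨i, hi, rfl⟩
        rcases Nat.lt_succ_iff_lt_or_eq.1 hi with h' | rfl
        · exact Or.inl ⟨i, h', rfl⟩
        · exact Or.inr rfl
      · rintro (⟨i, hi, rfl⟩ | rfl)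
        · exact ⟨i, by omega, rfl⟩
        · exact ⟨m, by omega, rfl⟩
    rw [e, sp_base]
    refine (h E (MvPolynomial ℕ E) (sp E (vs E m) []) (X m) (D + 1) D
      (sp_finite _ (vs_finite E m) _) (one_mem_sp _ _) (by omega) (Or.inr (by omega))).trans ?_
    calc ∑ i ∈ Finset.range (D + 1), (if i ≤ D then
          Module.finrank E ((sp E (vs E m) []) ^ (D - i) : Submodule E (MvPolynomial ℕ E)) else 0)
        ≤ ∑ i ∈ Finset.range (D + 1), (D + 1 - 1 - i + m).choose m := by
          refine Finset.sum_le_sum fun i hi => ?_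
          rw [if_pos (by have := Finset.mem_range.1 hi; omega)]
          exact ih (D - i)
      _ = ∑ i ∈ Finset.range (D + 1), (i + m).choose m :=
          Finset.sum_range_reflect (fun i => (i + m).choose m) (D + 1)
      _ = (D + (m + 1)).choose (m + 1) := by
          rw [Nat.sum_range_add_choose, add_assoc]

theorem hbd_base (h : HilStmt) (E : Type) [Field E] (n d : ℕ) (hd : 1 ≤ d)
    (L1 : List (MvPolynomial ℕ E)) (hL : ∀ u ∈ L1, u ∈ (sp E (vs E n) []) ^ d) : ∀ D,
    Module.finrank E ((sp E (vs E n) L1) ^ D : Submodule E (MvPolynomial ℕ E)) ≤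
      d ^ L1.length * (D + n).choose n := by
  induction L1 with
  | nil =>
    intro D
    simpa using hbd_vars h E n D
  | cons u L ih =>
    intro D
    have ih' := ih (fun v hv => hL v (List.mem_cons_of_mem u hv))
    rw [sp_cons, List.length_cons, pow_succ' d L.length]
    refine hbd_step h (sp E (vs E n) L) u d (d ^ L.length) n (sp_finite _ (vs_finite E n) _)
      (one_mem_sp _ _) hd ?_ ih' D
    have hle : sp E (vs E n) [] ≤ sp E (vs E n) L := by
      refine Submodule.span_mono ?_
      intro x hx
      rcases hx with hx | hx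
      · exact Or.inl hx
      · exact absurd hx (by simp)
    exact (pow_le_pow_left' hle d) (hL u (List.mem_cons_self ..))

theorem hbd (h : HilStmt) : HbdStmt := by
  intro E _ n d L1 l hd hL hl
  have e0 : sp E (vs E n ∪ {x | x ∈ L1}) [] = sp E (vs E n) L1 := by
    unfold sp
    congr 1
    ext x
    simp only [Set.mem_union, Set.mem_singleton_iff, Set.mem_ofPred_eq, List.not_mem_nil]
    tauto
  have hfin : (vs E n ∪ {x | x ∈ L1} : Set (MvPolynomial ℕ E)).Finite :=
    (vs_finite E n).union L1.finite_toSet
  induction l with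
  | nil =>
    intro D
    rw [e0]
    simpa using hbd_base h E n d hd L1 hL D
  | cons g l ih =>
    intro D
    obtain ⟨hl', a, ha, b, hb, rfl⟩ := hl
    rw [sp_cons, List.length_cons]
    have e1 : d ^ L1.length * 2 ^ (l.length + 1) = 2 * (d ^ L1.length * 2 ^ l.length) := by ring
    rw [e1]
    refine hbd_step h (sp E (vs E n ∪ {x | x ∈ L1}) l) (a * b) 2 (d ^ L1.length * 2 ^ l.length) n
      (sp_finite _ hfin _) (one_mem_sp _ _) (by omega) ?_ (ih hl') D
    rw [pow_two]
    exact Submodule.mul_mem_mul ha hb

end Pool.Agent.BSH.H27
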