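import Mathlib
import Pool.Agent.BSH.Stmts

/-!
# Squad BSH, row IND (helper27): independence from independent lowest terms.
-/

set_option autoImplicit false

namespace Pool.Agent.BSH.H27

open MvPolynomial Pool.Agent.BSH

theorem ind : IndStmt := by
  classical
  intro E _ Θ Ω wt M Ψ c b hΨ hc hb
  rw [Fintype.linearIndependent_iff]
  intro g hg
  by_contra hcon
  rw [not_forall] at hcon
  set S : Finset Ω := Finset.univ.filter (fun β : Ω => g β ≠ 0) with hS
  have hSne : S.Nonempty := by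
    obtain ⟨β, hβ⟩ := hcon
    exact ⟨β, Finset.mem_filter.2 ⟨Finset.mem_univ _, hβ⟩⟩
  obtain ⟨β₀, hβ₀, hmin⟩ := Finset.exists_min_image S (fun β : Ω => wt β) hSne
  have hg₀ : g β₀ ≠ 0 := (Finset.mem_filter.1 hβ₀).2
  choose Q hQ using hb
  have h1 : ∀ β : Ω, (Θ (g β • b β)).coeff (M + wt β₀) =
      Ψ * monomial (β : ℕ →₀ ℕ) (if wt β = wt β₀ then g β * c β else 0) := by
    intro β
    rw [map_smul, hQ β β.2, Polynomial.coeff_smul, Polynomial.coeff_X_pow_mul']
    by_cases h0 : g β = 0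
    · simp [h0]
    · have hle : wt β₀ ≤ wt β := hmin β (Finset.mem_filter.2 ⟨Finset.mem_univ _, h0⟩)
      by_cases hw : wt β = wt β₀
      · rw [if_pos (by omega), if_pos hw, hw, Nat.sub_self, Polynomial.coeff_add,
          Polynomial.coeff_C_zero, Polynomial.mul_coeff_zero, Polynomial.coeff_X_zero, zero_mul,
          add_zero, ← mul_smul_comm, smul_monomial, smul_eq_mul]
      · rw [if_neg (by omega), if_neg hw, smul_zero, monomial_zero, mul_zero]
  have h2 : ∑ β : Ω, Ψ * monomial (β : ℕ →₀ ℕ) (if wt β = wt β₀ then g β * c β else 0) = 0 := by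
    rw [← Finset.sum_congr rfl (fun β _ => h1 β), ← Polynomial.finset_sum_coeff, ← map_sum, hg,
      map_zero, Polynomial.coeff_zero]
  rw [← Finset.mul_sum, mul_eq_zero] at h2
  have h3 := h2.resolve_left hΨ
  have h4 : (∑ β : Ω, monomial (β : ℕ →₀ ℕ) (if wt β = wt β₀ then g β * c β else 0) :
      MvPolynomial ℕ E).coeff (β₀ : ℕ →₀ ℕ) = g β₀ * c β₀ := by
    rw [coeff_sum, Finset.sum_eq_single β₀]
    · rw [coeff_monomial, if_pos rfl, if_pos rfl]
    · intro β _ hβ
      rw [coeff_monomial, if_neg]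
      intro h
      exact hβ (Subtype.ext h)
    · intro h
      exact absurd (Finset.mem_univ _) h
  rw [h3, coeff_zero] at h4
  exact (mul_ne_zero hg₀ (hc β₀ β₀.2)) h4.symm

end Pool.Agent.BSH.H27
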